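import Pool.Agent.Helper13.SA.Runs

open Pool.Agent.Helper13.SA

namespace Pool.Agent.Results.MP_d22324_al.FiniteSplittings

/-- In the process of iterated splittings over finite or virtually infinite cyclic groups, whatever
the choices, the number of splittings over finite groups of groups that are not virtually free is
bounded; the groups on which strong accessibility depends are one-ended. -/
theorem result :
    (∀ (G : Type) [Group G] (d B k : ℕ) (g : Fin d → G), Subgroup.closure (Set.range g) = ⊤ →
      (∀ K : Subgroup G, Finite K → Nat.card K ≤ B) → Run G k → k ≤ B * (d - 1)) ∧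
    (∀ (G : Type) [Group G] [Group.FG G],
      (∃ B : ℕ, ∀ K : Subgroup G, Finite K → Nat.card K ≤ B) →
      ¬ StronglyAccessible FinVZ G →
      ∃ (H : Type) (_ : Group H), Below G H ∧ ¬ StronglyAccessible FinVZ H ∧
        ∀ (K : Type) [Group K], Below H K → ¬ StronglyAccessible FinVZ K →
          Infinite K ∧ ¬ Splits FinC K) :=
  finite_splittings

end Pool.Agent.Results.MP_d22324_al.FiniteSplittings
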